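import Pool.Agent.N931.PN.Stm5
import Pool.Agent.Y312.SN.SideL
import Pool.Agent.Y554.SN.Top

/-!
Project PN (helper931), piece PN/Y2: two layers, near the boundary (helper595).  The geometry of the
four sides follows `Pool.Agent.N340.PN.A1` (helper340), the transport of the two-layer probabilities
follows `Pool.Agent.Y185.SN.SideT`.
-/

set_option autoImplicit false

namespace Pool.Agent.N595.PN.Y2

open H974 H12S H389NS H389NS.D0 H984N H984P H342P Finset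
open H985T (An INDI_pexit)
open Pool.Agent.N116.EW
open Pool.Agent.N931.PN
open Pool.Agent.Y554.SN (HA YS S_YB)

theorem sd_le {u v : Vtx} {n : ℤ} : sd u v ≤ n ↔
    (-n ≤ u.1 - v.1 ∧ u.1 - v.1 ≤ n) ∧ -n ≤ u.2 - v.2 ∧ u.2 - v.2 ≤ n := by
  unfold sd
  rw [max_le_iff, abs_le, abs_le]

theorem le_sd {u v : Vtx} {n : ℤ} : n ≤ sd u v ↔
    (n ≤ u.1 - v.1 ∨ n ≤ -(u.1 - v.1)) ∨ n ≤ u.2 - v.2 ∨ n ≤ -(u.2 - v.2) := by
  unfold sd
  rw [le_max_iff, le_abs, le_abs]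

/-! ### deterministic part -/

theorem core {a N : ℕ} (haN : a ≤ N) {H G : Set Edg} {u w : Vtx}
    (hu : inR (-(a:ℤ)) a (-(a:ℤ)) a u)
    (hw : w.1 ≤ -(N:ℤ) ∨ (N:ℤ) ≤ w.1 ∨ w.2 ≤ -(N:ℤ) ∨ (N:ℤ) ≤ w.2) (hr : Reach H u w)
    (h1 : H ∩ ↑(An a N) ⊆ G ∩ ↑(HA a N)) (h2 : G ∩ ↑(HA a N) ⊆ H)
    (hno : ∀ v : Vtx, v.1 = 0 → ¬ Reach H u v) : YS a N G := by
  have hu' : inR (-(N:ℤ)) N (-(N:ℤ)) N u := by
    unfold inR at hu ⊢
    omega
  obtain ⟨v, k1, k2, k3⟩ := first_exit hu' hr hw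
  obtain ⟨u1, k4, k5⟩ := INDI_pexit (b := a) (N := N) haN (G := H ∩ ↑(boxE N)) (F := H)
    Set.inter_subset_left (fun e he => mem_coe.1 he.2) ⟨k1, k2⟩ (Reach.symm k3) hu
  refine ⟨u1, v, k4, ⟨k1, k2⟩, k5.mono h1, ?_⟩
  intro x hx hr2
  exact hno x hx ((k3.mono Set.inter_subset_left).trans
    ((k5.mono Set.inter_subset_left).symm.trans (hr2.mono h2)))

/-! ### probabilistic part -/

theorem prob {S : Finset Edg} {θ : Edg ≃ Edg} {a N : ℕ} {x : ℝ} (hx0 : 0 ≤ x) (hx1 : x ≤ 1)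
    (hM : ∀ e ∈ HA a N, θ.symm e ∈ S ∨ ((src e).1 = 0 ∧ (tgt e).1 = 0))
    {U : Finset Edg → Prop}
    (hU : ∀ F, F ⊆ S → U F → YS a N (↑(F.map θ.toEmbedding) : Set Edg)) :
    P2 (fun _ => x) S U U ≤
      P2 (fun _ => x) (HA a N) (fun F => YS a N ↑F) (fun F => YS a N ↑F) := by
  have ok : ∀ (S : Finset Edg), ∀ e ∈ S, 0 ≤ (fun _ : Edg => x) e ∧ (fun _ : Edg => x) e ≤ 1 :=
    fun _ _ _ => ⟨hx0, hx1⟩
  obtain ⟨M, hMdef⟩ : ∃ M, M = S.map θ.toEmbedding := ⟨_, rfl⟩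
  obtain ⟨A, hAdef⟩ : ∃ A, A = HA a N := ⟨_, rfl⟩
  have e1 : P2 (fun _ => x) S U U ≤
      P2 (fun _ => x) S (fun F => YS a N (↑(F.map θ.toEmbedding) : Set Edg))
        (fun F => YS a N (↑(F.map θ.toEmbedding) : Set Edg)) :=
    P2_mono (ok _) hU hU
  have e3 := P2_map θ.toEmbedding (fun _ : Edg => x) S
    (fun F => YS a N (↑F : Set Edg)) (fun F => YS a N (↑F : Set Edg))
  rw [← hMdef] at e3
  have e4 : P2 (fun _ => x) M (fun F => YS a N (↑F : Set Edg))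
      (fun F => YS a N (↑F : Set Edg)) =
      P2 (fun _ => x) (M ∩ A) (fun F => YS a N (↑F : Set Edg))
      (fun F => YS a N (↑F : Set Edg)) := by
    have hl : ∀ F, F ⊆ M → (YS a N (↑F : Set Edg) ↔
        YS a N (↑(F ∩ (M ∩ A)) : Set Edg)) := by
      intro F hF
      apply Y185.SN.YS_local
      rw [← hAdef]
      ext e
      simp only [mem_inter]
      constructor
      · rintro ⟨h1, h2⟩; exact ⟨⟨h1, hF h1, h2⟩, h2⟩
      · rintro ⟨⟨h1, -⟩, h2⟩; exact ⟨h1, h2⟩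
    exact P2_local inter_subset_left hl hl
  have e5 : P2 (fun _ => x) (M ∩ A) (fun F => YS a N (↑F : Set Edg))
      (fun F => YS a N (↑F : Set Edg)) ≤
      P2 (fun _ => x) (M ∩ A) (fun F => YS a N (↑(F ∩ M) : Set Edg))
      (fun F => YS a N (↑(F ∩ M) : Set Edg)) := by
    have hl : ∀ F, F ⊆ M ∩ A → YS a N (↑F : Set Edg) →
        YS a N (↑(F ∩ M) : Set Edg) := by
      intro F hF hY
      rw [inter_eq_left.2 (hF.trans inter_subset_left)]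
      exact hY
    exact P2_mono (ok _) hl hl
  have e6 : P2 (fun _ => x) A (fun F => YS a N (↑(F ∩ M) : Set Edg))
      (fun F => YS a N (↑(F ∩ M) : Set Edg)) =
      P2 (fun _ => x) (M ∩ A) (fun F => YS a N (↑(F ∩ M) : Set Edg))
      (fun F => YS a N (↑(F ∩ M) : Set Edg)) := by
    have hl : ∀ F, F ⊆ A → (YS a N (↑(F ∩ M) : Set Edg) ↔
        YS a N (↑(F ∩ (M ∩ A) ∩ M) : Set Edg)) := by
      intro F hF
      apply Y185.SN.YS_local
      rw [← hAdef]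
      ext e
      simp only [mem_inter]
      constructor
      · rintro ⟨⟨h1, h2⟩, h3⟩; exact ⟨⟨⟨h1, h2, h3⟩, h2⟩, h3⟩
      · rintro ⟨⟨⟨h1, -⟩, h2⟩, h3⟩; exact ⟨⟨h1, h2⟩, h3⟩
    exact P2_local inter_subset_right hl hl
  have e7 : P2 (fun _ => x) A (fun F => YS a N (↑(F ∩ M) : Set Edg))
      (fun F => YS a N (↑(F ∩ M) : Set Edg)) ≤
      P2 (fun _ => x) A (fun F => YS a N (↑F : Set Edg))
      (fun F => YS a N (↑F : Set Edg)) := by
    have hl : ∀ F, F ⊆ A → YS a N (↑(F ∩ M) : Set Edg) →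
        YS a N (↑F : Set Edg) := by
      intro F hF hY
      refine Y185.SN.YS_add (by rw [coe_inter]; exact Set.inter_subset_left) ?_ hY
      rintro e ⟨he1, he2⟩
      rcases hM e (mem_coe.1 he2) with h1 | h1
      · left
        rw [mem_coe, mem_inter, hMdef, mem_map]
        exact ⟨mem_coe.1 he1, θ.symm e, h1, by simp⟩
      · exact Or.inr h1
    exact P2_mono (ok _) hl hl
  rw [← hAdef]
  calc P2 (fun _ => x) S U U ≤ _ := e1
    _ = _ := e3.symm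
    _ = _ := e4
    _ ≤ _ := e5
    _ = _ := e6.symm
    _ ≤ _ := e7

/-- open arms -/
theorem op {D : Dm} {z : Vtx} {d R : ℕ} (σ : LSym) {a N : ℕ} (haN : a ≤ N) {x : ℝ} (hx0 : 0 ≤ x)
    (hx1 : x ≤ 1)
    (h1 : ∀ e ∈ HA a N, σ.φ.symm e ∈ D.edges)
    (h2 : ∀ v, sd v z ≤ d → inR (-(a:ℤ)) a (-(a:ℤ)) a (σ.ψ v))
    (h3 : ∀ v, (R : ℤ) ≤ sd v z → (σ.ψ v).1 ≤ -(N:ℤ) ∨ (N:ℤ) ≤ (σ.ψ v).1 ∨
      (σ.ψ v).2 ≤ -(N:ℤ) ∨ (N:ℤ) ≤ (σ.ψ v).2)
    (h4 : ∀ e ∈ D.edges, σ.φ e ∈ An a N → e ∈ AN z d R ∧ σ.φ e ∈ HA a N)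
    (h5 : ∀ v, (σ.ψ v).1 = 0 → D.bd v ≤ 0) :
    P2 (fun _ => x) D.edges (YO D z d R) (YO D z d R) ≤
      P2 (fun _ => x) (HA a N) (fun F => YS a N ↑F) (fun F => YS a N ↑F) := by
  have hHA : ∀ e ∈ HA a N, e ∈ An a N := by
    intro e he
    exact (Y185.SN.mem_HA.1 he).1
  refine prob hx0 hx1 (θ := σ.φ) (fun e he => Or.inl (h1 e he)) ?_
  rintro F hF ⟨u, w, hu, hw, hr, hno⟩
  have hr' := σ.reach hr
  refine core haN (h2 u hu) (h3 w hw) hr' ?_ ?_ ?_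
  · rintro _ ⟨⟨e, ⟨he1, he2⟩, rfl⟩, he3⟩
    refine ⟨?_, mem_coe.2 (h4 e (hF (mem_coe.1 he1)) (mem_coe.1 he3)).2⟩
    rw [mem_coe, mem_map]
    exact ⟨e, mem_coe.1 he1, rfl⟩
  · rintro e' ⟨he1, he2⟩
    rw [mem_coe, mem_map] at he1
    obtain ⟨e, he, rfl⟩ := he1
    refine ⟨e, ⟨mem_coe.2 he, ?_⟩, rfl⟩
    exact mem_coe.2 (h4 e (hF he) (hHA _ (mem_coe.1 he2))).1
  · intro v hv hrv
    obtain ⟨v', rfl⟩ : ∃ v', σ.ψ v' = v := ⟨σ.ψ.symm v, by simp⟩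
    rw [σ.reach_iff] at hrv
    exact hno v' (h5 v' hv) hrv

/-- dual arms -/
theorem du {D : Dm} {z : Vtx} {d R : ℕ} (σ : LSym) {a N : ℕ} (haN : a ≤ N) {x : ℝ} (hx0 : 0 ≤ x)
    (hx1 : x ≤ 1)
    (h1 : ∀ e ∈ HA a N, dl.symm (σ.φ.symm e) ∈ D.edges ∨ ((src e).1 = 0 ∧ (tgt e).1 = 0))
    (h2 : ∀ v, sd v z ≤ d + 1 → inR (-(a:ℤ)) a (-(a:ℤ)) a (σ.ψ v))
    (h3 : ∀ v, (R : ℤ) ≤ sd v z → (σ.ψ v).1 ≤ -(N:ℤ) ∨ (N:ℤ) ≤ (σ.ψ v).1 ∨
      (σ.ψ v).2 ≤ -(N:ℤ) ∨ (N:ℤ) ≤ (σ.ψ v).2)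
    (h4 : ∀ e ∈ D.edges, σ.φ (dl e) ∈ An a N → e ∈ AN z d R ∧ σ.φ (dl e) ∈ HA a N)
    (h5 : ∀ v, (σ.ψ v).1 = 0 → ¬ Pool.Agent.N931.PN.inF D v) :
    P2 (fun _ => x) D.edges (YD D z d R) (YD D z d R) ≤
      P2 (fun _ => x) (HA a N) (fun F => YS a N ↑F) (fun F => YS a N ↑F) := by
  have hHA : ∀ e ∈ HA a N, e ∈ An a N := by
    intro e he
    exact (Y185.SN.mem_HA.1 he).1
  rw [P2_compl]
  refine prob hx0 hx1 (θ := dl.trans σ.φ) (fun e he => h1 e he) ?_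
  rintro F hF ⟨u, w, hu, hw, hr, hno⟩
  have hF2 : ∀ e, e ∈ D.edges → (e ∉ D.edges \ F ↔ e ∈ F) := by
    intro e he
    rw [mem_sdiff]
    tauto
  rw [← reach_dl] at hr
  have hr' := σ.reach hr
  refine core haN (h2 u hu) (h3 w hw) hr' ?_ ?_ ?_
  · rintro _ ⟨⟨_, ⟨e, ⟨he0, he1, he2⟩, rfl⟩, rfl⟩, he3⟩
    refine ⟨?_, mem_coe.2 (h4 e he0 (mem_coe.1 he3)).2⟩
    rw [mem_coe, mem_map]
    exact ⟨e, (hF2 e he0).1 he1, rfl⟩
  · rintro e' ⟨he1, he2⟩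
    rw [mem_coe, mem_map] at he1
    obtain ⟨e, he, rfl⟩ := he1
    refine ⟨dl e, ⟨e, ⟨hF he, (hF2 e (hF he)).2 he, ?_⟩, rfl⟩, rfl⟩
    exact (h4 e (hF he) (hHA _ (mem_coe.1 he2))).1
  · intro v hv hrv
    obtain ⟨v', rfl⟩ : ∃ v', σ.ψ v' = v := ⟨σ.ψ.symm v, by simp⟩
    rw [σ.reach_iff, reach_dl] at hrv
    exact hno v' (h5 v' hv) hrv

/-! ### the four symmetries -/

/-- left side -/
def gL (p q : ℤ) : LSym where
  φ := { toFun := fun e => (e.1 - p, e.2.1 - q, e.2.2)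
         invFun := fun e => (e.1 + p, e.2.1 + q, e.2.2)
         left_inv := by intro e; simp
         right_inv := by intro e; simp }
  ψ := { toFun := fun u => (u.1 - p, u.2 - q)
         invFun := fun u => (u.1 + p, u.2 + q)
         left_inv := by intro e; simp
         right_inv := by intro e; simp }
  compat := by
    rintro ⟨x, y, _ | _⟩
    · left; simp; ring
    · left; simp; ring

/-- right side -/
def gR (p q : ℤ) : LSym where
  φ := { toFun := fun e => if e.2.2 then (p - e.1 - 1, e.2.1 - q, true)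
            else (p - e.1, e.2.1 - q, false)
         invFun := fun e => if e.2.2 then (p - e.1 - 1, e.2.1 + q, true)
            else (p - e.1, e.2.1 + q, false)
         left_inv := by rintro ⟨x, y, _ | _⟩ <;> (simp; try ring)
         right_inv := by rintro ⟨x, y, _ | _⟩ <;> (simp; try ring) }
  ψ := { toFun := fun u => (p - u.1, u.2 - q)
         invFun := fun u => (p - u.1, u.2 + q)
         left_inv := by intro e; simp
         right_inv := by intro e; simp }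
  compat := by
    rintro ⟨x, y, _ | _⟩
    · left; simp; ring
    · right; simp; ring

/-- bottom side -/
def gB (p q : ℤ) : LSym where
  φ := { toFun := fun e => (e.2.1 - p, e.1 - q, !e.2.2)
         invFun := fun e => (e.2.1 + q, e.1 + p, !e.2.2)
         left_inv := by intro e; simp
         right_inv := by intro e; simp }
  ψ := { toFun := fun u => (u.2 - p, u.1 - q)
         invFun := fun u => (u.2 + q, u.1 + p)
         left_inv := by intro e; simp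
         right_inv := by intro e; simp }
  compat := by
    rintro ⟨x, y, _ | _⟩
    · left; simp; ring
    · left; simp; ring

/-- top side -/
def gT (p q : ℤ) : LSym where
  φ := { toFun := fun e => if e.2.2 then (p - e.2.1, e.1 - q, false)
            else (p - e.2.1 - 1, e.1 - q, true)
         invFun := fun e => if e.2.2 then (e.2.1 + q, p - e.1 - 1, false)
            else (e.2.1 + q, p - e.1, true)
         left_inv := by rintro ⟨x, y, _ | _⟩ <;> (simp; try ring)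
         right_inv := by rintro ⟨x, y, _ | _⟩ <;> (simp; try ring) }
  ψ := { toFun := fun u => (p - u.2, u.1 - q)
         invFun := fun u => (u.2 + q, p - u.1)
         left_inv := by intro e; simp
         right_inv := by intro e; simp }
  compat := by
    rintro ⟨x, y, _ | _⟩
    · right; simp; ring
    · left; simp; ring

theorem mHt {a N : ℕ} {x y : ℤ} : ((x, y, true) : Edg) ∈ HA a N ↔
    (-(N:ℤ) ≤ x ∧ x < N ∧ -(N:ℤ) ≤ y ∧ y ≤ N) ∧
      ¬ (-(a:ℤ) ≤ x ∧ x < a ∧ -(a:ℤ) ≤ y ∧ y ≤ a) ∧ 0 ≤ x := by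
  rw [Y185.SN.mem_HA]
  unfold An boxE
  rw [mem_sdiff, mem_RE_true, mem_RE_true]
  simp only [src_mk, tgt_true]
  omega

theorem mHf {a N : ℕ} {x y : ℤ} : ((x, y, false) : Edg) ∈ HA a N ↔
    (-(N:ℤ) ≤ x ∧ x ≤ N ∧ -(N:ℤ) ≤ y ∧ y < N) ∧
      ¬ (-(a:ℤ) ≤ x ∧ x ≤ a ∧ -(a:ℤ) ≤ y ∧ y < a) ∧ 0 ≤ x := by
  rw [Y185.SN.mem_HA]
  unfold An boxE
  rw [mem_sdiff, mem_RE_false, mem_RE_false]
  simp only [src_mk, tgt_false]
  omega

theorem mAt {a N : ℕ} {x y : ℤ} : ((x, y, true) : Edg) ∈ An a N ↔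
    (-(N:ℤ) ≤ x ∧ x < N ∧ -(N:ℤ) ≤ y ∧ y ≤ N) ∧
      ¬ (-(a:ℤ) ≤ x ∧ x < a ∧ -(a:ℤ) ≤ y ∧ y ≤ a) := by
  unfold An boxE
  rw [mem_sdiff, mem_RE_true, mem_RE_true]

theorem mAf {a N : ℕ} {x y : ℤ} : ((x, y, false) : Edg) ∈ An a N ↔
    (-(N:ℤ) ≤ x ∧ x ≤ N ∧ -(N:ℤ) ≤ y ∧ y < N) ∧
      ¬ (-(a:ℤ) ≤ x ∧ x ≤ a ∧ -(a:ℤ) ≤ y ∧ y < a) := by
  unfold An boxE
  rw [mem_sdiff, mem_RE_false, mem_RE_false]

theorem mNt {z : Vtx} {d R : ℕ} {x y : ℤ} : ((x, y, true) : Edg) ∈ AN z d R ↔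
    (z.1 - R ≤ x ∧ x < z.1 + R ∧ z.2 - R ≤ y ∧ y ≤ z.2 + R) ∧
      ¬ (z.1 - d ≤ x ∧ x < z.1 + d ∧ z.2 - d ≤ y ∧ y ≤ z.2 + d) := by
  unfold AN blk
  rw [mem_sdiff, mem_RE_true, mem_RE_true]

theorem mNf {z : Vtx} {d R : ℕ} {x y : ℤ} : ((x, y, false) : Edg) ∈ AN z d R ↔
    (z.1 - R ≤ x ∧ x ≤ z.1 + R ∧ z.2 - R ≤ y ∧ y < z.2 + R) ∧
      ¬ (z.1 - d ≤ x ∧ x ≤ z.1 + d ∧ z.2 - d ≤ y ∧ y < z.2 + d) := by
  unfold AN blk
  rw [mem_sdiff, mem_RE_false, mem_RE_false]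

theorem mDt {D : Dm} {x y : ℤ} : ((x, y, true) : Edg) ∈ D.edges ↔
    D.l ≤ x ∧ x < D.r ∧ 0 ≤ y ∧ y ≤ D.h := by
  unfold Dm.edges
  rw [mem_RE_true]

theorem mDf {D : Dm} {x y : ℤ} : ((x, y, false) : Edg) ∈ D.edges ↔
    D.l ≤ x ∧ x ≤ D.r ∧ 0 ≤ y ∧ y < D.h := by
  unfold Dm.edges
  rw [mem_RE_false]

/-- the two-layer probability of `YS` -/
noncomputable def W (x : ℝ) (a N : ℕ) : ℝ :=
  P2 (fun _ => x) (HA a N) (fun F => YS a N ↑F) (fun F => YS a N ↑F)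

section sides

variable {D : Dm} {z : Vtx} {d R : ℕ} {x : ℝ}

theorem left_op (hd : 1 ≤ d) (h8 : 8 * d < R) (hz : D.l ≤ z.1) (hs : z.1 - D.l ≤ d)
    (a1 : (R:ℤ) ≤ z.2) (a2 : (R:ℤ) ≤ D.h - z.2) (a3 : (R:ℤ) ≤ D.r - D.l) (hx0 : 0 ≤ x)
    (hx1 : x ≤ 1) :
    P2 (fun _ => x) D.edges (YO D z d R) (YO D z d R) ≤ W x (4 * d) (R - 4 * d) := by
  refine op (gL D.l z.2) (by omega) hx0 hx1 ?_ ?_ ?_ ?_ ?_
  · rintro ⟨p, q, _ | _⟩ he
    · rw [mHf] at he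
      change ((p + D.l, q + z.2, false) : Edg) ∈ D.edges
      rw [mDf]
      omega
    · rw [mHt] at he
      change ((p + D.l, q + z.2, true) : Edg) ∈ D.edges
      rw [mDt]
      omega
  · rintro ⟨p, q⟩ h
    rw [sd_le] at h
    change inR _ _ _ _ (p - D.l, q - z.2)
    simp only [inR] at h ⊢
    omega
  · rintro ⟨p, q⟩ h
    rw [le_sd] at h
    change p - D.l ≤ _ ∨ _ ≤ p - D.l ∨ q - z.2 ≤ _ ∨ _ ≤ q - z.2
    simp only at h
    omega
  · rintro ⟨p, q, _ | _⟩ he h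
    · change ((p - D.l, q - z.2, false) : Edg) ∈ _ at h
      change _ ∧ ((p - D.l, q - z.2, false) : Edg) ∈ _
      rw [mDf] at he
      rw [mAf] at h
      rw [mNf, mHf]
      omega
    · change ((p - D.l, q - z.2, true) : Edg) ∈ _ at h
      change _ ∧ ((p - D.l, q - z.2, true) : Edg) ∈ _
      rw [mDt] at he
      rw [mAt] at h
      rw [mNt, mHt]
      omega
  · rintro ⟨p, q⟩ h
    change p - D.l = 0 at h
    simp only [Dm.bd]
    omega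

theorem right_op (hd : 1 ≤ d) (h8 : 8 * d < R) (hz : z.1 ≤ D.r) (hs : D.r - z.1 ≤ d)
    (a1 : (R:ℤ) ≤ z.2) (a2 : (R:ℤ) ≤ D.h - z.2) (a3 : (R:ℤ) ≤ D.r - D.l) (hx0 : 0 ≤ x)
    (hx1 : x ≤ 1) :
    P2 (fun _ => x) D.edges (YO D z d R) (YO D z d R) ≤ W x (4 * d) (R - 4 * d) := by
  refine op (gR D.r z.2) (by omega) hx0 hx1 ?_ ?_ ?_ ?_ ?_
  · rintro ⟨p, q, _ | _⟩ he
    · rw [mHf] at he
      change ((D.r - p, q + z.2, false) : Edg) ∈ D.edges
      rw [mDf]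
      omega
    · rw [mHt] at he
      change ((D.r - p - 1, q + z.2, true) : Edg) ∈ D.edges
      rw [mDt]
      omega
  · rintro ⟨p, q⟩ h
    rw [sd_le] at h
    change inR _ _ _ _ (D.r - p, q - z.2)
    simp only [inR] at h ⊢
    omega
  · rintro ⟨p, q⟩ h
    rw [le_sd] at h
    change D.r - p ≤ _ ∨ _ ≤ D.r - p ∨ q - z.2 ≤ _ ∨ _ ≤ q - z.2
    simp only at h
    omega
  · rintro ⟨p, q, _ | _⟩ he h
    · change ((D.r - p, q - z.2, false) : Edg) ∈ _ at h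
      change _ ∧ ((D.r - p, q - z.2, false) : Edg) ∈ _
      rw [mDf] at he
      rw [mAf] at h
      rw [mNf, mHf]
      omega
    · change ((D.r - p - 1, q - z.2, true) : Edg) ∈ _ at h
      change _ ∧ ((D.r - p - 1, q - z.2, true) : Edg) ∈ _
      rw [mDt] at he
      rw [mAt] at h
      rw [mNt, mHt]
      omega
  · rintro ⟨p, q⟩ h
    change D.r - p = 0 at h
    simp only [Dm.bd]
    omega

theorem bot_op (hd : 1 ≤ d) (h8 : 8 * d < R) (hz : 0 ≤ z.2) (hs : z.2 ≤ d)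
    (a1 : (R:ℤ) ≤ z.1 - D.l) (a2 : (R:ℤ) ≤ D.r - z.1) (a3 : (R:ℤ) ≤ D.h) (hx0 : 0 ≤ x)
    (hx1 : x ≤ 1) :
    P2 (fun _ => x) D.edges (YO D z d R) (YO D z d R) ≤ W x (4 * d) (R - 4 * d) := by
  refine op (gB 0 z.1) (by omega) hx0 hx1 ?_ ?_ ?_ ?_ ?_
  · rintro ⟨p, q, _ | _⟩ he
    · rw [mHf] at he
      change ((q + z.1, p + 0, true) : Edg) ∈ D.edges
      rw [mDt]
      omega
    · rw [mHt] at he
      change ((q + z.1, p + 0, false) : Edg) ∈ D.edges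
      rw [mDf]
      omega
  · rintro ⟨p, q⟩ h
    rw [sd_le] at h
    change inR _ _ _ _ (q - 0, p - z.1)
    simp only [inR] at h ⊢
    omega
  · rintro ⟨p, q⟩ h
    rw [le_sd] at h
    change q - 0 ≤ _ ∨ _ ≤ q - 0 ∨ p - z.1 ≤ _ ∨ _ ≤ p - z.1
    simp only at h
    omega
  · rintro ⟨p, q, _ | _⟩ he h
    · change ((q - 0, p - z.1, true) : Edg) ∈ _ at h
      change _ ∧ ((q - 0, p - z.1, true) : Edg) ∈ _
      rw [mDf] at he
      rw [mAt] at h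
      rw [mNf, mHt]
      omega
    · change ((q - 0, p - z.1, false) : Edg) ∈ _ at h
      change _ ∧ ((q - 0, p - z.1, false) : Edg) ∈ _
      rw [mDt] at he
      rw [mAf] at h
      rw [mNt, mHf]
      omega
  · rintro ⟨p, q⟩ h
    change q - 0 = 0 at h
    simp only [Dm.bd]
    omega

theorem top_op (hd : 1 ≤ d) (h8 : 8 * d < R) (hz : z.2 ≤ D.h) (hs : D.h - z.2 ≤ d)
    (a1 : (R:ℤ) ≤ z.1 - D.l) (a2 : (R:ℤ) ≤ D.r - z.1) (a3 : (R:ℤ) ≤ D.h) (hx0 : 0 ≤ x)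
    (hx1 : x ≤ 1) :
    P2 (fun _ => x) D.edges (YO D z d R) (YO D z d R) ≤ W x (4 * d) (R - 4 * d) := by
  refine op (gT D.h z.1) (by omega) hx0 hx1 ?_ ?_ ?_ ?_ ?_
  · rintro ⟨p, q, _ | _⟩ he
    · rw [mHf] at he
      change ((q + z.1, D.h - p, true) : Edg) ∈ D.edges
      rw [mDt]
      omega
    · rw [mHt] at he
      change ((q + z.1, D.h - p - 1, false) : Edg) ∈ D.edges
      rw [mDf]
      omega
  · rintro ⟨p, q⟩ h
    rw [sd_le] at h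
    change inR _ _ _ _ (D.h - q, p - z.1)
    simp only [inR] at h ⊢
    omega
  · rintro ⟨p, q⟩ h
    rw [le_sd] at h
    change D.h - q ≤ _ ∨ _ ≤ D.h - q ∨ p - z.1 ≤ _ ∨ _ ≤ p - z.1
    simp only at h
    omega
  · rintro ⟨p, q, _ | _⟩ he h
    · change ((D.h - q - 1, p - z.1, true) : Edg) ∈ _ at h
      change _ ∧ ((D.h - q - 1, p - z.1, true) : Edg) ∈ _
      rw [mDf] at he
      rw [mAt] at h
      rw [mNf, mHt]
      omega
    · change ((D.h - q, p - z.1, false) : Edg) ∈ _ at h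
      change _ ∧ ((D.h - q, p - z.1, false) : Edg) ∈ _
      rw [mDt] at he
      rw [mAf] at h
      rw [mNt, mHf]
      omega
  · rintro ⟨p, q⟩ h
    change D.h - q = 0 at h
    simp only [Dm.bd]
    omega

/-! dual arms: the edge `(p, q, true)` becomes `(p, q - 1, false)`, and `(p, q, false)` becomes
`(p - 1, q, true)` -/

theorem left_du (hd : 1 ≤ d) (h8 : 8 * d < R) (hz : D.l ≤ z.1) (hs : z.1 - D.l ≤ d)
    (a1 : (R:ℤ) ≤ z.2) (a2 : (R:ℤ) ≤ D.h - z.2) (a3 : (R:ℤ) ≤ D.r - D.l) (hx0 : 0 ≤ x)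
    (hx1 : x ≤ 1) :
    P2 (fun _ => x) D.edges (YD D z d R) (YD D z d R) ≤ W x (4 * d) (R - 4 * d) := by
  refine du (gL (D.l - 1) z.2) (by omega) hx0 hx1 ?_ ?_ ?_ ?_ ?_
  · rintro ⟨p, q, _ | _⟩ he
    · rw [mHf] at he
      change ((p + (D.l - 1), q + z.2 + 1, true) : Edg) ∈ D.edges ∨ (p = 0 ∧ p = 0)
      rw [mDt]
      omega
    · rw [mHt] at he
      change ((p + (D.l - 1) + 1, q + z.2, false) : Edg) ∈ D.edges ∨ (p = 0 ∧ p + 1 = 0)
      rw [mDf]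
      omega
  · rintro ⟨p, q⟩ h
    rw [sd_le] at h
    change inR _ _ _ _ (p - (D.l - 1), q - z.2)
    simp only [inR] at h ⊢
    omega
  · rintro ⟨p, q⟩ h
    rw [le_sd] at h
    change p - (D.l - 1) ≤ _ ∨ _ ≤ p - (D.l - 1) ∨ q - z.2 ≤ _ ∨ _ ≤ q - z.2
    simp only at h
    omega
  · rintro ⟨p, q, _ | _⟩ he h
    · change ((p - 1 - (D.l - 1), q - z.2, true) : Edg) ∈ _ at h
      change _ ∧ ((p - 1 - (D.l - 1), q - z.2, true) : Edg) ∈ _
      rw [mDf] at he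
      rw [mAt] at h
      rw [mNf, mHt]
      omega
    · change ((p - (D.l - 1), q - 1 - z.2, false) : Edg) ∈ _ at h
      change _ ∧ ((p - (D.l - 1), q - 1 - z.2, false) : Edg) ∈ _
      rw [mDt] at he
      rw [mAf] at h
      rw [mNt, mHf]
      omega
  · rintro ⟨p, q⟩ h
    change p - (D.l - 1) = 0 at h
    simp only [Pool.Agent.N931.PN.inF]
    omega

theorem right_du (hd : 1 ≤ d) (h8 : 8 * d < R) (hz : z.1 ≤ D.r) (hs : D.r - z.1 ≤ d)
    (a1 : (R:ℤ) ≤ z.2) (a2 : (R:ℤ) ≤ D.h - z.2) (a3 : (R:ℤ) ≤ D.r - D.l) (hx0 : 0 ≤ x)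
    (hx1 : x ≤ 1) :
    P2 (fun _ => x) D.edges (YD D z d R) (YD D z d R) ≤ W x (4 * d) (R - 4 * d) := by
  refine du (gR D.r z.2) (by omega) hx0 hx1 ?_ ?_ ?_ ?_ ?_
  · rintro ⟨p, q, _ | _⟩ he
    · rw [mHf] at he
      change ((D.r - p, q + z.2 + 1, true) : Edg) ∈ D.edges ∨ (p = 0 ∧ p = 0)
      rw [mDt]
      omega
    · rw [mHt] at he
      change ((D.r - p - 1 + 1, q + z.2, false) : Edg) ∈ D.edges ∨ (p = 0 ∧ p + 1 = 0)
      rw [mDf]
      omega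
  · rintro ⟨p, q⟩ h
    rw [sd_le] at h
    change inR _ _ _ _ (D.r - p, q - z.2)
    simp only [inR] at h ⊢
    omega
  · rintro ⟨p, q⟩ h
    rw [le_sd] at h
    change D.r - p ≤ _ ∨ _ ≤ D.r - p ∨ q - z.2 ≤ _ ∨ _ ≤ q - z.2
    simp only at h
    omega
  · rintro ⟨p, q, _ | _⟩ he h
    · change ((D.r - (p - 1) - 1, q - z.2, true) : Edg) ∈ _ at h
      change _ ∧ ((D.r - (p - 1) - 1, q - z.2, true) : Edg) ∈ _
      rw [mDf] at he
      rw [mAt] at h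
      rw [mNf, mHt]
      omega
    · change ((D.r - p, q - 1 - z.2, false) : Edg) ∈ _ at h
      change _ ∧ ((D.r - p, q - 1 - z.2, false) : Edg) ∈ _
      rw [mDt] at he
      rw [mAf] at h
      rw [mNt, mHf]
      omega
  · rintro ⟨p, q⟩ h
    change D.r - p = 0 at h
    simp only [Pool.Agent.N931.PN.inF]
    omega

theorem bot_du (hd : 1 ≤ d) (h8 : 8 * d < R) (hz : 0 ≤ z.2) (hs : z.2 ≤ d)
    (a1 : (R:ℤ) ≤ z.1 - D.l) (a2 : (R:ℤ) ≤ D.r - z.1) (a3 : (R:ℤ) ≤ D.h) (hx0 : 0 ≤ x)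
    (hx1 : x ≤ 1) :
    P2 (fun _ => x) D.edges (YD D z d R) (YD D z d R) ≤ W x (4 * d) (R - 4 * d) := by
  refine du (gB (-1) z.1) (by omega) hx0 hx1 ?_ ?_ ?_ ?_ ?_
  · rintro ⟨p, q, _ | _⟩ he
    · rw [mHf] at he
      change ((q + z.1 + 1, p + -1, false) : Edg) ∈ D.edges ∨ (p = 0 ∧ p = 0)
      rw [mDf]
      omega
    · rw [mHt] at he
      change ((q + z.1, p + -1 + 1, true) : Edg) ∈ D.edges ∨ (p = 0 ∧ p + 1 = 0)
      rw [mDt]
      omega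
  · rintro ⟨p, q⟩ h
    rw [sd_le] at h
    change inR _ _ _ _ (q - -1, p - z.1)
    simp only [inR] at h ⊢
    omega
  · rintro ⟨p, q⟩ h
    rw [le_sd] at h
    change q - -1 ≤ _ ∨ _ ≤ q - -1 ∨ p - z.1 ≤ _ ∨ _ ≤ p - z.1
    simp only at h
    omega
  · rintro ⟨p, q, _ | _⟩ he h
    · change ((q - -1, p - 1 - z.1, false) : Edg) ∈ _ at h
      change _ ∧ ((q - -1, p - 1 - z.1, false) : Edg) ∈ _
      rw [mDf] at he
      rw [mAf] at h
      rw [mNf, mHf]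
      omega
    · change ((q - 1 - -1, p - z.1, true) : Edg) ∈ _ at h
      change _ ∧ ((q - 1 - -1, p - z.1, true) : Edg) ∈ _
      rw [mDt] at he
      rw [mAt] at h
      rw [mNt, mHt]
      omega
  · rintro ⟨p, q⟩ h
    change q - -1 = 0 at h
    simp only [Pool.Agent.N931.PN.inF]
    omega

theorem top_du (hd : 1 ≤ d) (h8 : 8 * d < R) (hz : z.2 ≤ D.h) (hs : D.h - z.2 ≤ d)
    (a1 : (R:ℤ) ≤ z.1 - D.l) (a2 : (R:ℤ) ≤ D.r - z.1) (a3 : (R:ℤ) ≤ D.h) (hx0 : 0 ≤ x)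
    (hx1 : x ≤ 1) :
    P2 (fun _ => x) D.edges (YD D z d R) (YD D z d R) ≤ W x (4 * d) (R - 4 * d) := by
  refine du (gT D.h z.1) (by omega) hx0 hx1 ?_ ?_ ?_ ?_ ?_
  · rintro ⟨p, q, _ | _⟩ he
    · rw [mHf] at he
      change ((q + z.1 + 1, D.h - p, false) : Edg) ∈ D.edges ∨ (p = 0 ∧ p = 0)
      rw [mDf]
      omega
    · rw [mHt] at he
      change ((q + z.1, D.h - p - 1 + 1, true) : Edg) ∈ D.edges ∨ (p = 0 ∧ p + 1 = 0)
      rw [mDt]
      omega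
  · rintro ⟨p, q⟩ h
    rw [sd_le] at h
    change inR _ _ _ _ (D.h - q, p - z.1)
    simp only [inR] at h ⊢
    omega
  · rintro ⟨p, q⟩ h
    rw [le_sd] at h
    change D.h - q ≤ _ ∨ _ ≤ D.h - q ∨ p - z.1 ≤ _ ∨ _ ≤ p - z.1
    simp only at h
    omega
  · rintro ⟨p, q, _ | _⟩ he h
    · change ((D.h - q, p - 1 - z.1, false) : Edg) ∈ _ at h
      change _ ∧ ((D.h - q, p - 1 - z.1, false) : Edg) ∈ _
      rw [mDf] at he
      rw [mAf] at h
      rw [mNf, mHf]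
      omega
    · change ((D.h - (q - 1) - 1, p - z.1, true) : Edg) ∈ _ at h
      change _ ∧ ((D.h - (q - 1) - 1, p - z.1, true) : Edg) ∈ _
      rw [mDt] at he
      rw [mAt] at h
      rw [mNt, mHt]
      omega
  · rintro ⟨p, q⟩ h
    change D.h - q = 0 at h
    simp only [Pool.Agent.N931.PN.inF]
    omega

end sides

/-- PN/Y2, from the two-layer probability of `YS` -/
theorem main' (hYB : S_YB) : S_Y2 := by
  intro κ hκ
  obtain ⟨C₀, hC₀, hW⟩ := hYB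
  refine ⟨64 * C₀ + 64, min 1 κ / 1000, by positivity, by positivity, ?_⟩
  intro n D hn hS z d R hz hd hbd hdR hRq x hx0 hx1 hx
  have hd' : (1 : ℝ) ≤ d := by exact_mod_cast hd
  have hdR' : (d : ℝ) ≤ R := by exact_mod_cast hdR
  have hR0 : (0 : ℝ) < R := by linarith
  have hpow0 : (0 : ℝ) ≤ ((d : ℝ) / R) ^ (11 / 6 : ℝ) := by positivity
  have hsq : ∀ y : ℝ, 0 ≤ y → y ≤ 1 → y ^ (2 : ℝ) ≤ y ^ (11 / 6 : ℝ) := by
    intro y hy0 hy1
    rcases hy0.eq_or_lt with h | h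
    · rw [← h, Real.zero_rpow (by norm_num), Real.zero_rpow (by norm_num)]
    · exact Real.rpow_le_rpow_of_exponent_ge h hy1 (by norm_num)
  by_cases h8 : R ≤ 8 * d
  · -- trivial case
    have h2 : (1 / 8 : ℝ) ≤ (d : ℝ) / R := by
      rw [le_div_iff₀ hR0]
      have : (R : ℝ) ≤ 8 * d := by exact_mod_cast h8
      linarith
    have h3 : (1 / 8 : ℝ) ^ (11 / 6 : ℝ) ≤ ((d : ℝ) / R) ^ (11 / 6 : ℝ) :=
      Real.rpow_le_rpow (by norm_num) h2 (by norm_num)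
    have h4 : (1 / 64 : ℝ) ≤ (1 / 8 : ℝ) ^ (11 / 6 : ℝ) := by
      refine le_trans (le_of_eq ?_) (hsq (1 / 8) (by norm_num) (by norm_num))
      norm_num
    have ok : ∀ e : Edg, 0 ≤ (H389NS.hp e : ℝ) ∧ (H389NS.hp e : ℝ) ≤ 1 := by
      intro e; unfold H389NS.hp; norm_num
    have ht : ∀ A : Finset Edg → Prop, P2 (fun _ => x) D.edges A A ≤
        (64 * C₀ + 64) * ((d : ℝ) / R) ^ (11 / 6 : ℝ) := by
      intro A
      have k1 := P2_le_Pr (ρ := fun _ : Edg => x) (S := D.edges) (fun _ _ => ⟨hx0, hx1.le⟩) A A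
      have k2 := Pr_le_one ok D.edges A
      nlinarith
    exact ⟨ht _, ht _⟩
  · push Not at h8
    -- integer facts
    have hq0 : (0 : ℝ) < qd D z := by
      by_contra hn
      push Not at hn
      have : min 1 κ / 1000 * (qd D z : ℝ) ≤ 0 := mul_nonpos_of_nonneg_of_nonpos (by positivity) hn
      linarith
    have hq1 : 1000 * (R : ℤ) ≤ qd D z := by
      have h1 : (R : ℝ) ≤ 1 / 1000 * qd D z := by
        refine hRq.trans ?_
        apply mul_le_mul_of_nonneg_right _ hq0.le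
        have := min_le_left (1 : ℝ) κ
        linarith
      have h2 : 1000 * (R : ℝ) ≤ qd D z := by linarith
      exact_mod_cast h2
    have hqc : (1000 * (R : ℤ) ≤ sd z (D.l, 0) ∧ 1000 * (R : ℤ) ≤ sd z (D.r, 0)) ∧
        (1000 * (R : ℤ) ≤ sd z (D.l, D.h) ∧ 1000 * (R : ℤ) ≤ sd z (D.r, D.h)) ∧
        1000 * (R : ℤ) ≤ sd z (D.t, D.h) ∧ 1000 * (R : ℤ) ≤ sd z (0, 0) := by
      unfold qd at hq1
      simp only [le_min_iff] at hq1
      tauto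
    obtain ⟨hok, hs1, hs2, hs3, hs4, hs5⟩ := hS
    obtain ⟨hl, hr, hh, hlt, htr⟩ := hok
    unfold inR at hz
    have hqn : (qd D z : ℝ) ≤ n := by
      have h1 : qd D z ≤ max (D.r - D.l) D.h := by
        have h2 : qd D z ≤ sd z (D.l, 0) := by
          unfold qd
          exact (min_le_left _ _).trans ((min_le_left _ _).trans (min_le_left _ _))
        refine h2.trans ?_
        rw [sd_le]
        simp only
        have := le_max_left (D.r - D.l) D.h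
        have := le_max_right (D.r - D.l) D.h
        omega
      have h2 : ((max (D.r - D.l) D.h : ℤ) : ℝ) ≤ n := by
        push_cast
        push_cast at hs4
        exact max_le hs4 hs5
      exact (by exact_mod_cast h1 : (qd D z : ℝ) ≤ ((max (D.r - D.l) D.h : ℤ) : ℝ)).trans h2
    have hκn : 1000 * (R : ℝ) ≤ κ * n := by
      have h1 : (R : ℝ) ≤ κ / 1000 * qd D z := by
        refine hRq.trans ?_
        apply mul_le_mul_of_nonneg_right _ hq0.le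
        have := min_le_right (1 : ℝ) κ
        linarith
      have h2 : κ / 1000 * (qd D z : ℝ) ≤ κ / 1000 * n :=
        mul_le_mul_of_nonneg_left hqn (by positivity)
      linarith
    have hRl : 1000 * (R : ℤ) ≤ -D.l := by
      have : 1000 * (R : ℝ) ≤ -D.l := hκn.trans hs1
      exact_mod_cast this
    have hRr : 1000 * (R : ℤ) ≤ D.r := by
      have : 1000 * (R : ℝ) ≤ D.r := hκn.trans hs2
      exact_mod_cast this
    have hRh : 1000 * (R : ℤ) ≤ D.h := by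
      have : 1000 * (R : ℝ) ≤ D.h := hκn.trans hs3
      exact_mod_cast this
    obtain ⟨⟨q1, q2⟩, ⟨q3, q4⟩, q5, q6⟩ := hqc
    rw [le_sd] at q1 q2 q3 q4 q5 q6
    simp only at q1 q2 q3 q4 q5 q6
    have hd0 : (1 : ℤ) ≤ d := by exact_mod_cast hd
    have h80 : 8 * (d : ℤ) < R := by exact_mod_cast h8
    have hfin : P2 (fun _ => x) D.edges (YO D z d R) (YO D z d R) ≤ W x (4 * d) (R - 4 * d) ∧
        P2 (fun _ => x) D.edges (YD D z d R) (YD D z d R) ≤ W x (4 * d) (R - 4 * d) := by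
      -- which side
      have hside : z.1 - D.l ≤ d ∨ D.r - z.1 ≤ d ∨ z.2 ≤ d ∨ D.h - z.2 ≤ d := by
        unfold Dm.bd at hbd
        simp only [min_le_iff] at hbd
        exact or_assoc.1 hbd
      rcases hside with hs | hs | hs | hs
      · -- left side
        have a1 : 999 * (R : ℤ) ≤ z.2 := by clear q2 q3 q4 q5 q6; omega
        have a2 : 999 * (R : ℤ) ≤ D.h - z.2 := by clear q1 q2 q4 q5 q6; omega
        clear q1 q2 q3 q4 q5 q6 hq1
        exact ⟨left_op hd h8 hz.1.1 hs (by omega) (by omega) (by omega) hx0 hx1.le,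
          left_du hd h8 hz.1.1 hs (by omega) (by omega) (by omega) hx0 hx1.le⟩
      · -- right side
        have a1 : 999 * (R : ℤ) ≤ z.2 := by clear q1 q3 q4 q5 q6; omega
        have a2 : 999 * (R : ℤ) ≤ D.h - z.2 := by clear q1 q2 q3 q5 q6; omega
        clear q1 q2 q3 q4 q5 q6 hq1
        exact ⟨right_op hd h8 hz.1.2 hs (by omega) (by omega) (by omega) hx0 hx1.le,
          right_du hd h8 hz.1.2 hs (by omega) (by omega) (by omega) hx0 hx1.le⟩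
      · -- bottom side
        have a1 : 999 * (R : ℤ) ≤ z.1 - D.l := by clear q2 q3 q4 q5 q6; omega
        have a2 : 999 * (R : ℤ) ≤ D.r - z.1 := by clear q1 q3 q4 q5 q6; omega
        clear q1 q2 q3 q4 q5 q6 hq1
        exact ⟨bot_op hd h8 hz.2.1 hs (by omega) (by omega) (by omega) hx0 hx1.le,
          bot_du hd h8 hz.2.1 hs (by omega) (by omega) (by omega) hx0 hx1.le⟩
      · -- top side
        have a1 : 999 * (R : ℤ) ≤ z.1 - D.l := by clear q1 q2 q4 q5 q6; omega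
        have a2 : 999 * (R : ℤ) ≤ D.r - z.1 := by clear q1 q2 q3 q5 q6; omega
        clear q1 q2 q3 q4 q5 q6 hq1
        exact ⟨top_op hd h8 hz.2.2 hs (by omega) (by omega) (by omega) hx0 hx1.le,
          top_du hd h8 hz.2.2 hs (by omega) (by omega) (by omega) hx0 hx1.le⟩
    have hdx : 1 ≤ (1 - x) * ((4 * d : ℕ) : ℝ) ^ (3 / 4 : ℝ) := by
      refine hx.trans (mul_le_mul_of_nonneg_left ?_ (by linarith))
      apply Real.rpow_le_rpow (by positivity) _ (by norm_num)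
      push_cast
      linarith
    have hb := hW (4 * d) (R - 4 * d) x (by omega) (by omega) hx0 hx1 hdx
    have hb2 : W x (4 * d) (R - 4 * d) ≤ 64 * C₀ * ((d : ℝ) / R) ^ (11 / 6 : ℝ) := by
      refine hb.trans ?_
      have hcast : ((R - 4 * d : ℕ) : ℝ) = (R : ℝ) - 4 * d := by
        rw [Nat.cast_sub (by omega)]
        push_cast
        ring
      have h80' : 8 * (d : ℝ) < R := by exact_mod_cast h8
      have hle : ((4 * d : ℕ) : ℝ) / ((R - 4 * d : ℕ) : ℝ) ≤ 8 * ((d : ℝ) / R) := by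
        rw [hcast, div_le_iff₀ (by linarith)]
        push_cast
        have : 8 * ((d : ℝ) / R) * (R - 4 * d) = 8 * d - 8 * d * (4 * d / R) := by
          field_simp
        rw [this]
        have h5 : 4 * (d : ℝ) / R ≤ 1 / 2 := by
          rw [div_le_iff₀ hR0]
          linarith
        nlinarith
      have hpw : (((4 * d : ℕ) : ℝ) / ((R - 4 * d : ℕ) : ℝ)) ^ (11 / 6 : ℝ) ≤
          64 * ((d : ℝ) / R) ^ (11 / 6 : ℝ) := by
        refine (Real.rpow_le_rpow (by positivity) hle (by norm_num)).trans ?_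
        rw [Real.mul_rpow (by norm_num) (by positivity)]
        refine mul_le_mul_of_nonneg_right ?_ hpow0
        calc (8 : ℝ) ^ (11 / 6 : ℝ) ≤ 8 ^ (2 : ℝ) :=
              Real.rpow_le_rpow_of_exponent_le (by norm_num) (by norm_num)
          _ = 64 := by norm_num
      calc C₀ * (((4 * d : ℕ) : ℝ) / ((R - 4 * d : ℕ) : ℝ)) ^ (11 / 6 : ℝ) ≤
            C₀ * (64 * ((d : ℝ) / R) ^ (11 / 6 : ℝ)) := mul_le_mul_of_nonneg_left hpw hC₀.le
        _ = 64 * C₀ * ((d : ℝ) / R) ^ (11 / 6 : ℝ) := by ring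
    constructor
    · refine (hfin.1.trans hb2).trans ?_
      nlinarith
    · refine (hfin.2.trans hb2).trans ?_
      nlinarith

/-- **PN/Y2** -/
theorem main : S_Y2 := main' Pool.Agent.Y554.SN.yb

end Pool.Agent.N595.PN.Y2
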